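import Mathlib
import Pool.Agent.Lib.MP_1e1895_co.Z1

set_option autoImplicit false

/-!
# Equations in three variables: one bound for all fields of characteristic zero
-/

namespace Pool.Agent.Results.MP_1e1895_co.CharZeroFields

/-- There is one number `C` of colours such that for every field `K` of characteristic `0` and all
coefficients `a, b, c` in `K` without vanishing nonempty subset sum the nonzero elements of `K` have
a `C`-colouring without monochromatic solution of `a x + b y + c z = 0`. -/
theorem result : ∃ C : ℕ, ∀ (K : Type) [Field K] [CharZero K] (a b c : K), a ≠ 0 → b ≠ 0 → c ≠ 0 →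
    a + b ≠ 0 → a + c ≠ 0 → b + c ≠ 0 → a + b + c ≠ 0 →
    ∃ χ : K → Fin C, ∀ x y z : K, x ≠ 0 → y ≠ 0 → z ≠ 0 → a * x + b * y + c * z = 0 →
      ¬ (χ x = χ y ∧ χ y = χ z) := by
  obtain ⟨C, h1, -⟩ := Pool.Agent.R1.Z1
  exact ⟨C, fun K _ _ a b c ha hb hc hab hac hbc habc => h1 K a b c ⟨ha, hb, hc, hab, hac, hbc, habc⟩⟩

end Pool.Agent.Results.MP_1e1895_co.CharZeroFields
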