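import Pool.Agent.Lib.MP_1e1895_co.HtC

/-!
# MP_1e1895_co: the number of colours is bounded by the height of the coefficients
-/

set_option autoImplicit false

namespace Pool.Agent.Results.MP_1e1895_co.HeightColours

/-- For every `k ≥ 1` there is `C` such that the following holds. Let `p` be a prime, `a_1, ..., a_k`
integers without nonempty subset sum divisible by `p`, and suppose that `a_i ≡ μ m_i (mod p)` with
integers `μ` and `|m_i| ≤ A`, where `A ≥ 2`.

(1) The residues mod `p` have a colouring with `C ⌊log₂ A⌋` colours in which `∑ a_i x_i = 0` has no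
monochromatic solution in nonzero residues.

(2) For every `t ≠ 0` the residues `x` for which the least absolute residue of `t x` is less than
`p / (k A)` have such a colouring with `C (⌊log₂ ⌊log₂ A⌋⌋ + 1)` colours. -/
theorem result : ∀ k : ℕ, 1 ≤ k → ∃ C : ℕ, ∀ (p : ℕ) [Fact p.Prime], ∀ a : Fin k → ℤ,
    (∀ I : Finset (Fin k), I.Nonempty → ¬ (p : ℤ) ∣ ∑ i ∈ I, a i) →
    ∀ (A : ℕ) (μ : ℤ) (m : Fin k → ℤ), 2 ≤ A → (∀ i, |m i| ≤ A) →
    (∀ i, (p : ℤ) ∣ a i - μ * m i) →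
    (∃ χ : ZMod p → Fin (C * Nat.log 2 A), ∀ x : Fin k → ZMod p, (∀ i, x i ≠ 0) →
        ∑ i, (a i : ZMod p) * x i = 0 → ¬ ∀ i j, χ (x i) = χ (x j)) ∧
    (∀ t : ZMod p, t ≠ 0 → ∃ χ : ZMod p → Fin (C * (Nat.log 2 (Nat.log 2 A) + 1)),
        ∀ x : Fin k → ZMod p, (∀ i, x i ≠ 0) →
        (∀ i, k * A * (t * x i).valMinAbs.natAbs < p) →
        ∑ i, (a i : ZMod p) * x i = 0 → ¬ ∀ i j, χ (x i) = χ (x j)) := by
  intro k hk
  obtain ⟨C₁, h₁⟩ := Pool.Agent.Lib.MP_1e1895_co.Ht.full k hk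
  obtain ⟨C₂, h₂⟩ := Pool.Agent.Lib.MP_1e1895_co.Ht.central k hk
  refine ⟨max C₁ C₂, ?_⟩
  intro p hp a ha A μ m hA hm ham
  have hzs : ∀ I : Finset (Fin k), I.Nonempty → ¬ (p : ℤ) ∣ ∑ j ∈ I, m j := by
    intro I hI hd
    apply ha I hI
    have h1 : ∑ i ∈ I, a i = ∑ i ∈ I, (a i - μ * m i) + μ * ∑ i ∈ I, m i := by
      rw [Finset.mul_sum, ← Finset.sum_add_distrib]
      exact Finset.sum_congr rfl (fun i _ => by ring)
    rw [h1]
    exact dvd_add (Finset.dvd_sum (fun i _ => ham i)) (Dvd.dvd.mul_left hd μ)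
  have hcast : ∀ i, (a i : ZMod p) = (μ : ZMod p) * (m i : ZMod p) := by
    intro i
    have h1 := (ZMod.intCast_zmod_eq_zero_iff_dvd (a i - μ * m i) p).2 (ham i)
    push_cast at h1
    exact sub_eq_zero.1 h1
  have hμ : (μ : ZMod p) ≠ 0 := by
    intro h
    apply ha {⟨0, hk⟩} (Finset.singleton_nonempty _)
    rw [Finset.sum_singleton, ← ZMod.intCast_zmod_eq_zero_iff_dvd, hcast, h, zero_mul]
  have heq : ∀ x : Fin k → ZMod p, ∑ i, (a i : ZMod p) * x i = 0 →
      ∑ i, (m i : ZMod p) * x i = 0 := by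
    intro x hx
    have h1 : ∑ i, (a i : ZMod p) * x i = (μ : ZMod p) * ∑ i, (m i : ZMod p) * x i := by
      rw [Finset.mul_sum]
      exact Finset.sum_congr rfl (fun i _ => by rw [hcast i]; ring)
    rw [h1] at hx
    exact (mul_eq_zero.1 hx).resolve_left hμ
  constructor
  · obtain ⟨χ, hχ⟩ := h₁ A hA m hm p hzs
    refine ⟨fun y => Fin.castLE (Nat.mul_le_mul_right _ (le_max_left _ _)) (χ y), ?_⟩
    intro x hx hsum hmono
    exact hχ x hx (heq x hsum) (fun i j => Fin.castLE_injective _ (hmono i j))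
  · intro t ht
    obtain ⟨χ, hχ⟩ := h₂ A hA m hm p hzs t ht
    refine ⟨fun y => Fin.castLE (Nat.mul_le_mul_right _ (le_max_right _ _)) (χ y), ?_⟩
    intro x hx hsmall hsum hmono
    exact hχ x hx hsmall (heq x hsum) (fun i j => Fin.castLE_injective _ (hmono i j))

end Pool.Agent.Results.MP_1e1895_co.HeightColours
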