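import Mathlib

/-!
# MP_1e1895_co: logarithmically many colours for every `k`
-/

set_option autoImplicit false

namespace Pool.Agent.Results.MP_1e1895_co.LogColours

/-- the representative of `u` lies in `[p/4, 3p/4]` -/
def Gd {p : ℕ} (u : ZMod p) : Prop := p ≤ 4 * u.val ∧ 4 * u.val ≤ 3 * p

instance {p : ℕ} (u : ZMod p) : Decidable (Gd u) := by
  unfold Gd; infer_instance

lemma count (p : ℕ) [hp : Fact p.Prime] :
    p - 1 ≤ 2 * (Finset.univ.filter (fun u : ZMod p => Gd u)).card := by
  classical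
  have hp2 : 2 ≤ p := hp.out.two_le
  have h1 : ((Finset.Icc ((p + 3) / 4) (3 * p / 4)).image (fun n : ℕ => (n : ZMod p))) ⊆
      Finset.univ.filter (fun u : ZMod p => Gd u) := by
    intro u hu
    simp only [Finset.mem_image, Finset.mem_Icc] at hu
    obtain ⟨n, ⟨h1, h2⟩, rfl⟩ := hu
    simp only [Finset.mem_filter, Finset.mem_univ, true_and, Gd]
    have hn : n < p := by omega
    rw [ZMod.val_natCast_of_lt hn]
    omega
  have h2 := Finset.card_le_card h1
  rw [Finset.card_image_of_injOn] at h2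
  · rw [Nat.card_Icc] at h2
    omega
  · intro a ha b hb hab
    simp only [Finset.coe_Icc, Set.mem_Icc] at ha hb
    have ha' : a < p := by omega
    have hb' : b < p := by omega
    have := congrArg ZMod.val hab
    simpa [ZMod.val_natCast_of_lt ha', ZMod.val_natCast_of_lt hb'] using this

/-- greedy choice -/
lemma greedy {T X : Type*} [Fintype T] [DecidableEq X] [Nonempty T] (R : T → X → Prop)
    [∀ t x, Decidable (R t x)] (Y₀ : Finset X)
    (hR : ∀ x ∈ Y₀, Fintype.card T ≤ 2 * (Finset.univ.filter (fun t => R t x)).card) :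
    ∀ (n : ℕ) (Y : Finset X), Y ⊆ Y₀ → Y.card < 2 ^ n →
      ∃ f : Fin n → T, ∀ y ∈ Y, ∃ i, R (f i) y := by
  classical
  intro n
  induction n with
  | zero =>
    intro Y _ hc
    have : Y = ∅ := by
      rw [← Finset.card_eq_zero]; simpa using hc
    subst this
    exact ⟨fun i => i.elim0, by simp⟩
  | succ n ih =>
    intro Y hY hc
    have hex : ∃ t : T, Y.card ≤ 2 * (Y.filter (fun y => R t y)).card := by
      by_contra hcon
      push Not at hcon
      have h1 : ∑ t : T, 2 * (Y.filter (fun y => R t y)).card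
          = ∑ y ∈ Y, 2 * (Finset.univ.filter (fun t => R t y)).card := by
        rw [← Finset.mul_sum, ← Finset.mul_sum]
        congr 1
        have := Finset.sum_card_bipartiteAbove_eq_sum_card_bipartiteBelow
          (s := (Finset.univ : Finset T)) (t := Y) (r := R)
        simpa [Finset.bipartiteAbove, Finset.bipartiteBelow] using this
      have h2 : Y.card * Fintype.card T ≤
          ∑ y ∈ Y, 2 * (Finset.univ.filter (fun t => R t y)).card := by
        have : ∑ y ∈ Y, Fintype.card T ≤
          ∑ y ∈ Y, 2 * (Finset.univ.filter (fun t => R t y)).card :=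
          Finset.sum_le_sum (fun y hy => hR y (hY hy))
        simpa using this
      have h3 : ∑ t : T, 2 * (Y.filter (fun y => R t y)).card < ∑ _t : T, Y.card :=
        Finset.sum_lt_sum_of_nonempty Finset.univ_nonempty (fun t _ => hcon t)
      rw [h1] at h3
      simp only [Finset.sum_const, Finset.card_univ, smul_eq_mul] at h3
      have : Y.card * Fintype.card T < Fintype.card T * Y.card := lt_of_le_of_lt h2 h3
      rw [mul_comm] at this
      exact lt_irrefl _ this
    obtain ⟨t, ht⟩ := hex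
    have hsplit := Finset.card_filter_add_card_filter_not (s := Y) (fun y => R t y)
    obtain ⟨f, hf⟩ := ih (Y.filter (fun y => ¬ R t y))
      ((Finset.filter_subset _ _).trans hY) (by rw [pow_succ] at hc; omega)
    refine ⟨Fin.cons t f, ?_⟩
    intro y hy
    by_cases hyt : R t y
    · exact ⟨0, by simpa using hyt⟩
    · obtain ⟨i, hi⟩ := hf y (by simp [hy, hyt])
      exact ⟨i.succ, by simpa using hi⟩

/-- the key estimate -/
lemma core {k p : ℕ} [hp : Fact p.Prime] (hk : 1 ≤ k) (a : Fin k → ZMod p)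
    (t : ZMod p) (x : Fin k → ZMod p) (j₀ : Fin k)
    (hg : Gd ((∑ j, a j) * t * x j₀))
    (hcell : ∀ j, (a j * t * x j).val * (4 * k) / p = (a j * t * x j₀).val * (4 * k) / p)
    (hsum : ∑ j, a j * x j = 0) : False := by
  have hp0 : 0 < p := hp.out.pos
  set D : Fin k → ℤ := fun j => ((a j * t * x j).val : ℤ) - ((a j * t * x j₀).val : ℤ) with hD
  have hDle : ∀ j, |D j| * (4 * k) < p := by
    intro j
    have h := hcell j
    set A := (a j * t * x j).val
    set B := (a j * t * x j₀).val
    have hA := Nat.div_add_mod (A * (4 * k)) p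
    have hB := Nat.div_add_mod (B * (4 * k)) p
    have hA' := Nat.mod_lt (A * (4 * k)) hp0
    have hB' := Nat.mod_lt (B * (4 * k)) hp0
    rw [h] at hA
    have e : |D j| * (4 * k) = |(A : ℤ) * (4 * k) - B * (4 * k)| := by
      rw [← sub_mul, abs_mul]
      congr 1
      rw [abs_of_nonneg]; positivity
    rw [e, abs_lt]
    have hA2 : ((A * (4 * k) : ℕ) : ℤ) = ((p * (B * (4 * k) / p) + A * (4 * k) % p : ℕ) : ℤ) := by
      rw [hA]
    have hB2 : ((B * (4 * k) : ℕ) : ℤ) = ((p * (B * (4 * k) / p) + B * (4 * k) % p : ℕ) : ℤ) := by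
      rw [hB]
    push_cast at hA2 hB2
    have hA3 : ((A * (4 * k) % p : ℕ) : ℤ) < p := by exact_mod_cast hA'
    have hB3 : ((B * (4 * k) % p : ℕ) : ℤ) < p := by exact_mod_cast hB'
    have hA4 : (0 : ℤ) ≤ ((A * (4 * k) % p : ℕ) : ℤ) := by positivity
    have hB4 : (0 : ℤ) ≤ ((B * (4 * k) % p : ℕ) : ℤ) := by positivity
    push_cast at hA3 hB3 hA4 hB4
    constructor <;> linarith
  have hsumD : ((∑ j, D j : ℤ) : ZMod p) = - ((∑ j, a j) * t * x j₀) := by
    push_cast [hD]
    simp only [ZMod.natCast_val, ZMod.cast_id', id_eq]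
    rw [Finset.sum_sub_distrib]
    have h1 : ∑ j, a j * t * x j = 0 := by
      have : ∑ j, a j * t * x j = t * ∑ j, a j * x j := by
        rw [Finset.mul_sum]
        exact Finset.sum_congr rfl (fun j _ => by ring)
      rw [this, hsum, mul_zero]
    have h2 : ∑ j, a j * t * x j₀ = (∑ j, a j) * t * x j₀ := by
      rw [Finset.sum_mul, Finset.sum_mul]
    rw [h1, h2, zero_sub]
  have habs : |∑ j, D j| * 4 < p := by
    have h1 : |∑ j, D j| ≤ ∑ j, |D j| := Finset.abs_sum_le_sum_abs _ _
    have h2 : (∑ j : Fin k, |D j| * (4 * (k : ℤ))) < ∑ _j : Fin k, (p : ℤ) := by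
      have : Nonempty (Fin k) := ⟨j₀⟩
      exact Finset.sum_lt_sum_of_nonempty Finset.univ_nonempty (fun j _ => hDle j)
    rw [← Finset.sum_mul] at h2
    simp only [Finset.sum_const, Finset.card_univ, Fintype.card_fin, nsmul_eq_mul] at h2
    have hk' : (0 : ℤ) < k := by exact_mod_cast hk
    have h3 : (∑ j, |D j|) * 4 < p := by
      have : (k : ℤ) * ((∑ j, |D j|) * 4) < k * p := by linarith
      exact lt_of_mul_lt_mul_left this hk'.le
    linarith
  set u := (∑ j, a j) * t * x j₀ with hu
  have hmod : ((u.val + ∑ j, D j : ℤ) : ZMod p) = 0 := by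
    rw [Int.cast_add, hsumD]
    simp
  rw [ZMod.intCast_zmod_eq_zero_iff_dvd] at hmod
  obtain ⟨m, hm⟩ := hmod
  obtain ⟨g1, g2⟩ := hg
  have g1' : (p : ℤ) ≤ 4 * (u.val : ℤ) := by exact_mod_cast g1
  have g2' : 4 * (u.val : ℤ) ≤ 3 * p := by exact_mod_cast g2
  have habs' : |(∑ j, D j) * 4| < p := by
    rw [abs_mul]; simpa using habs
  rw [abs_lt] at habs'
  have hp' : (0 : ℤ) < p := by exact_mod_cast hp0
  have h4 : 0 < (p : ℤ) * (4 * m) := by
    have : (p : ℤ) * (4 * m) = 4 * (p * m) := by ring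
    rw [this, ← hm]; linarith
  have h5 : (p : ℤ) * (4 * m) < p * 4 := by
    have : (p : ℤ) * (4 * m) = 4 * (p * m) := by ring
    rw [this, ← hm]; linarith
  have h6 : 0 < 4 * m := (mul_pos_iff_of_pos_left hp').1 h4
  have h7 : 4 * m < 4 := lt_of_mul_lt_mul_left h5 hp'.le
  omega

/-- For every `k ≥ 1` there is `C` such that for every prime `p` and all integers `a_1, ..., a_k`
whose sum is not divisible by `p` (in particular for every zero-sum-free tuple) the residues mod `p`
have a colouring with `C ⌊log₂ p⌋` colours in which `∑ a_i x_i = 0` has no monochromatic solution in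
nonzero residues. -/
theorem result : ∀ k : ℕ, 1 ≤ k → ∃ C : ℕ, ∀ (p : ℕ) [Fact p.Prime], ∀ a : Fin k → ℤ,
    ¬ (p : ℤ) ∣ ∑ i, a i →
      ∃ χ : ZMod p → Fin (C * Nat.log 2 p), ∀ x : Fin k → ZMod p, (∀ i, x i ≠ 0) →
        ∑ i, (a i : ZMod p) * x i = 0 → ¬ ∀ i j, χ (x i) = χ (x j) := by
  classical
  intro k hk
  refine ⟨2 * (4 * k) ^ k, ?_⟩
  intro p hp a ha
  have hp2 : 2 ≤ p := hp.out.two_le
  have hp0 : 0 < p := by omega
  set s : ZMod p := ∑ j, (a j : ZMod p) with hs
  have hs0 : s ≠ 0 := by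
    intro h
    apply ha
    rw [← ZMod.intCast_zmod_eq_zero_iff_dvd]
    push_cast
    exact h
  -- greedy
  set n := Nat.log 2 p + 1 with hn
  have hgr : ∃ f : Fin n → (ZMod p)ˣ, ∀ y ∈ (Finset.univ.filter (fun y : ZMod p => y ≠ 0)),
      ∃ i, Gd (s * (f i : ZMod p) * y) := by
    refine greedy (T := (ZMod p)ˣ) (fun t y => Gd (s * (t : ZMod p) * y)) _ ?_ n _
      (Finset.Subset.refl _) ?_
    · intro y hy
      simp only [Finset.mem_filter, Finset.mem_univ, true_and] at hy
      rw [ZMod.card_units_eq_totient, Nat.totient_prime hp.out]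
      refine (count p).trans (Nat.mul_le_mul_left 2 ?_)
      have hinj : (Finset.univ.filter (fun u : ZMod p => Gd u)) ⊆
          (Finset.univ.filter (fun t : (ZMod p)ˣ => Gd (s * (t : ZMod p) * y))).image
            (fun t : (ZMod p)ˣ => s * (t : ZMod p) * y) := by
        intro u hu
        simp only [Finset.mem_filter, Finset.mem_univ, true_and] at hu
        have hu0 : u ≠ 0 := by
          rintro rfl
          have := hu.1
          simp at this
          omega
        simp only [Finset.mem_image, Finset.mem_filter, Finset.mem_univ, true_and]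
        have hne : u * s⁻¹ * y⁻¹ ≠ 0 := by
          exact mul_ne_zero (mul_ne_zero hu0 (inv_ne_zero hs0)) (inv_ne_zero hy)
        refine ⟨Units.mk0 _ hne, ?_, ?_⟩
        · simp only [Units.val_mk0]
          have : s * (u * s⁻¹ * y⁻¹) * y = u := by field_simp
          rw [this]; exact hu
        · simp only [Units.val_mk0]
          field_simp
      exact (Finset.card_le_card hinj).trans Finset.card_image_le
    · have h1 : (Finset.univ.filter (fun y : ZMod p => y ≠ 0)).card ≤ p := by
        refine (Finset.card_le_univ _).trans ?_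
        simp [ZMod.card]
      exact lt_of_le_of_lt h1 (Nat.lt_pow_succ_log_self (by norm_num) p)
  obtain ⟨f, hf⟩ := hgr
  have hL : 0 < 4 * k := by omega
  -- choose the place
  have hplace : ∀ y : ZMod p, ∃ i : Fin n, y ≠ 0 → Gd (s * (f i : ZMod p) * y) := by
    intro y
    by_cases hy : y = 0
    · exact ⟨⟨0, by omega⟩, fun h => absurd hy h⟩
    · obtain ⟨i, hi⟩ := hf y (by simp [hy])
      exact ⟨i, fun _ => hi⟩
  choose pl hpl using hplace
  have hcell : ∀ u : ZMod p, u.val * (4 * k) / p < 4 * k := by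
    intro u
    rw [Nat.div_lt_iff_lt_mul hp0]
    have := ZMod.val_lt u
    calc u.val * (4 * k) < p * (4 * k) := Nat.mul_lt_mul_of_pos_right this hL
      _ = 4 * k * p := by ring
  let col : ZMod p → Fin n × (Fin k → Fin (4 * k)) := fun y =>
    (pl y, fun j => ⟨((a j : ZMod p) * (f (pl y) : ZMod p) * y).val * (4 * k) / p, hcell _⟩)
  have hcard : Fintype.card (Fin n × (Fin k → Fin (4 * k))) ≤ 2 * (4 * k) ^ k * Nat.log 2 p := by
    simp only [Fintype.card_prod, Fintype.card_fin, Fintype.card_fun]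
    have hlog : 1 ≤ Nat.log 2 p := Nat.log_pos (by norm_num) hp2
    have : n ≤ 2 * Nat.log 2 p := by omega
    calc n * (4 * k) ^ k ≤ (2 * Nat.log 2 p) * (4 * k) ^ k := Nat.mul_le_mul_right _ this
      _ = _ := by ring
  let e := Fintype.equivFin (Fin n × (Fin k → Fin (4 * k)))
  refine ⟨fun y => Fin.castLE hcard (e (col y)), ?_⟩
  intro x hx hsum hmono
  let j₀ : Fin k := ⟨0, hk⟩
  have hcol : ∀ j, col (x j) = col (x j₀) := by
    intro j
    have := hmono j j₀
    exact e.injective (Fin.castLE_injective hcard this)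
  have hpl' : ∀ j, pl (x j) = pl (x j₀) := fun j => congrArg Prod.fst (hcol j)
  refine core hk (fun j => (a j : ZMod p)) (f (pl (x j₀)) : ZMod p) x j₀
    (hpl (x j₀) (hx j₀)) ?_ hsum
  intro j
  have h := congrArg (fun c => (c.2 j : ℕ)) (hcol j)
  simp only [col] at h
  rw [hpl' j] at h
  exact h

end Pool.Agent.Results.MP_1e1895_co.LogColours
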