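import Mathlib
import Pool.Agent.Lib.MP_1e1895_co.Z1
import Pool.Agent.Lib.MP_1e1895_co.G5

set_option autoImplicit false

/-!
# Equations in three variables modulo `p`: quotients of generalised arithmetic progressions
-/

namespace Pool.Agent.Results.MP_1e1895_co.ProgressionQuotients

/-- There is one number `C` of colours such that for every `d` there is `m` with the following
property.  Let `p` be a prime, `a 0, a 1, a 2` integers without nonempty subset sum divisible by `p`,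
`l 0, …, l (d-1)` residues modulo `p` and `(H + 1) ^ m ≤ p`.  The residues `u ≠ 0` which are quotients
`(∑ n_j l_j) / (∑ n'_j l_j)` with integers `|n_j|, |n'_j| ≤ H` can be coloured with `C` colours
without monochromatic solution of `a 0 x 0 + a 1 x 1 + a 2 x 2 = 0`. -/
theorem result : ∃ C : ℕ, ∀ d : ℕ, ∃ m : ℕ, ∀ p : ℕ, p.Prime → ∀ a : Fin 3 → ℤ,
    (∀ I : Finset (Fin 3), I.Nonempty → (∑ i ∈ I, ((a i : ℤ) : ZMod p)) ≠ 0) →
    ∀ (l : Fin d → ZMod p) (H : ℕ), (H + 1) ^ m ≤ p →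
    ∃ c : (ZMod p)ˣ → Fin C, ∀ x : Fin 3 → (ZMod p)ˣ,
      (∀ i, ∃ n n' : Fin d → ℤ, (∀ j, |n j| ≤ H ∧ |n' j| ≤ H) ∧
        (∑ j, (n' j : ZMod p) * l j) ≠ 0 ∧
        ((x i : (ZMod p)ˣ) : ZMod p) * (∑ j, (n' j : ZMod p) * l j) = ∑ j, (n j : ZMod p) * l j) →
      (∑ i, ((a i : ℤ) : ZMod p) * ((x i : (ZMod p)ˣ) : ZMod p)) = 0 →
      ∃ i j : Fin 3, c (x i) ≠ c (x j) := by
  obtain ⟨C, h1, -⟩ := Pool.Agent.R1.Z1
  refine ⟨C, fun d => ?_⟩
  obtain ⟨m, hm⟩ := Pool.Agent.R1.G5 C h1 d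
  refine ⟨m, ?_⟩
  intro p hp a ha l H hH
  haveI : Fact p.Prime := ⟨hp⟩
  have hz : Pool.Agent.R1.ZSF ((a 0 : ℤ) : ZMod p) ((a 1 : ℤ) : ZMod p) ((a 2 : ℤ) : ZMod p) := by
    have k0 := ha {0} (by simp)
    have k1 := ha {1} (by simp)
    have k2 := ha {2} (by simp)
    have k01 := ha {0, 1} (by simp)
    have k02 := ha {0, 2} (by simp)
    have k12 := ha {1, 2} (by simp)
    have k012 := ha Finset.univ (by simp)
    simp only [Finset.sum_singleton] at k0 k1 k2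
    rw [Finset.sum_pair (by decide)] at k01 k02 k12
    rw [Fin.sum_univ_three] at k012
    exact ⟨k0, k1, k2, k01, k02, k12, k012⟩
  obtain ⟨χ, hχ⟩ := hm p _ _ _ hz l H hH
  refine ⟨fun u => χ (u : ZMod p), ?_⟩
  intro x hx hsum
  by_contra hcon
  push Not at hcon
  have hmem : ∀ i, ((x i : (ZMod p)ˣ) : ZMod p) ∈ Pool.Agent.R1.Quo l H := by
    intro i
    obtain ⟨n, n', h2, h3, h4⟩ := hx i
    exact ⟨n, n', fun j => (h2 j).1, fun j => (h2 j).2, h3, h4⟩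
  rw [Fin.sum_univ_three] at hsum
  exact hχ _ (hmem 0) _ (hmem 1) _ (hmem 2) (x 0).ne_zero (x 1).ne_zero (x 2).ne_zero hsum
    ⟨hcon 0 1, hcon 1 2⟩

end Pool.Agent.Results.MP_1e1895_co.ProgressionQuotients
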